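import Pool.Agent.H57.EH.KKM

/-! A balanced mixture of configurations, from the lemma of Knaster, Kuratowski, Mazurkiewicz. -/

namespace Pool.Agent.H85.ES

open Pool.Agent.H56.EH Finset

/-- the tuples of the mixture at the point `X / K` -/
def sh {k : ℕ} (K : ℕ) (X : Fin k → ℕ) (θ : Fin K) : Fin k → ℕ := fun i => (X i + θ) / K

theorem sh_mono {k K : ℕ} {X : Fin k → ℕ} (hX : Monotone X) (θ : Fin K) : Monotone (sh K X θ) :=
  fun _ _ h => Nat.div_le_div_right (Nat.add_le_add_right (hX h) _)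

theorem div_lt_of {K a N : ℕ} (θ : Fin K) (h : a ≤ K * N) : (a + θ) / K ≤ N := by
  have hK : 0 < K := θ.pos
  rw [← Nat.lt_succ_iff, Nat.div_lt_iff_lt_mul hK]
  have := θ.2
  calc a + θ < K * N + K := by omega
    _ = (N + 1) * K := by ring

theorem sh_le {k K N : ℕ} {X : Fin k → ℕ} (hX : ∀ i, X i ≤ K * N) (θ : Fin K) (i : Fin k) :
    sh K X θ i ≤ N := div_lt_of θ (hX i)

/-- an empty gap of the fine configuration is empty in all configurations of the mixture -/
theorem gap_sh {k K N : ℕ} {X : Fin k → ℕ} (hX : ∀ i, X i ≤ K * N) (θ : Fin K) {g : Fin (k + 1)}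
    (h : gap (K * N) X g = 0) : gap N (sh K X θ) g = 0 := by
  have hK : 0 < K := θ.pos
  unfold gap at h ⊢
  rw [Nat.sub_eq_zero_iff_le] at h ⊢
  by_cases h1 : g.val < k <;> by_cases h2 : 0 < g.val
  · rw [dif_pos h1, dif_pos h2] at h ⊢
    exact Nat.div_le_div_right (Nat.add_le_add_right h _)
  · rw [dif_pos h1, dif_neg h2] at h ⊢
    have h3 : X ⟨g.val, h1⟩ = 0 := Nat.le_zero.1 h
    show (X ⟨g.val, h1⟩ + θ) / K ≤ 0
    rw [h3, zero_add, Nat.div_eq_of_lt θ.2]
  · rw [dif_neg h1, dif_pos h2] at h ⊢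
    show N ≤ (X ⟨g.val - 1, _⟩ + θ) / K
    rw [Nat.le_div_iff_mul_le hK]
    calc N * K = K * N := mul_comm _ _
      _ ≤ X ⟨g.val - 1, _⟩ := h
      _ ≤ X ⟨g.val - 1, _⟩ + θ := Nat.le_add_right _ _
  · rw [dif_neg h1, dif_neg h2] at h ⊢
    have h3 : K * N = 0 := Nat.le_zero.1 h
    rcases Nat.mul_eq_zero.1 h3 with h4 | h4
    · omega
    · omega

theorem exists_gap {k M : ℕ} {X : Fin k → ℕ} (hM : 0 < M) : ∃ g, gap M X g ≠ 0 := by
  by_contra hc
  have hc' : ∀ g, gap M X g = 0 := fun g => by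
    by_contra h
    exact hc ⟨g, h⟩
  have key : ∀ i (hi : i < k), X ⟨i, hi⟩ = 0 := by
    intro i
    induction i with
    | zero =>
      intro hi
      have h := hc' ⟨0, by omega⟩
      unfold gap at h
      rw [dif_pos (show (⟨0, by omega⟩ : Fin (k + 1)).val < k from hi), dif_neg (by simp)] at h
      simpa using h
    | succ i ih =>
      intro hi
      have h := hc' ⟨i + 1, by omega⟩
      unfold gap at h
      rw [dif_pos (show (⟨i + 1, by omega⟩ : Fin (k + 1)).val < k from hi),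
        dif_pos (by simp)] at h
      have h2 := ih (by omega)
      have h3 : X ⟨(⟨i + 1, by omega⟩ : Fin (k + 1)).val - 1, by simp; omega⟩ = X ⟨i, by omega⟩ := by
        congr 1
      rw [h3, h2] at h
      simpa using h
  have h := hc' (Fin.last k)
  unfold gap at h
  rw [dif_neg (by simp)] at h
  by_cases h2 : 0 < (Fin.last k).val
  · rw [dif_pos h2] at h
    have h3 := key ((Fin.last k).val - 1) (by simp at h2 ⊢; omega)
    rw [h3] at h
    omega
  · rw [dif_neg h2] at h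
    omega

theorem card_change {K : ℕ} (a : ℕ) :
    (univ.filter fun θ : Fin K => (a + θ) / K ≠ (a + 1 + θ) / K).card ≤ 1 := by
  rw [card_le_one]
  intro θ hθ θ' hθ'
  rw [mem_filter] at hθ hθ'
  have h1 : ∀ θ : Fin K, (a + θ) / K ≠ (a + 1 + θ) / K → K ∣ a + θ + 1 := by
    intro θ h
    by_contra hd
    apply h
    rw [show a + 1 + (θ : ℕ) = a + θ + 1 by omega, Nat.succ_div, if_neg hd, add_zero]
  have h2 := h1 θ hθ.2
  have h3 := h1 θ' hθ'.2
  have h4 := θ.2
  have h5 := θ'.2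
  apply Fin.ext
  rcases le_total (θ : ℕ) θ' with h | h
  · have h6 := (Nat.dvd_sub h3 h2)
    rw [show a + (θ' : ℕ) + 1 - (a + θ + 1) = θ' - θ by omega] at h6
    rcases Nat.eq_zero_or_pos ((θ' : ℕ) - θ) with h7 | h7
    · omega
    · have := Nat.le_of_dvd h7 h6
      omega
  · have h6 := (Nat.dvd_sub h2 h3)
    rw [show a + (θ : ℕ) + 1 - (a + θ' + 1) = θ - θ' by omega] at h6
    rcases Nat.eq_zero_or_pos ((θ : ℕ) - θ') with h7 | h7
    · omega
    · have := Nat.le_of_dvd h7 h6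
      omega

theorem card_bad {k K : ℕ} {X Y : Fin k → ℕ} (h : ∀ i, X i ≤ Y i ∧ Y i ≤ X i + 1) :
    (univ.filter fun θ : Fin K => sh K X θ ≠ sh K Y θ).card ≤ k := by
  have h1 : (univ.filter fun θ : Fin K => sh K X θ ≠ sh K Y θ) ⊆
      univ.biUnion fun i => univ.filter fun θ : Fin K => (X i + θ) / K ≠ (Y i + θ) / K := by
    intro θ hθ
    rw [mem_filter] at hθ
    rw [mem_biUnion]
    obtain ⟨i, hi⟩ := Function.ne_iff.1 hθ.2
    exact ⟨i, mem_univ _, mem_filter.2 ⟨mem_univ _, hi⟩⟩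
  refine (card_le_card h1).trans (card_biUnion_le.trans ?_)
  calc ∑ i : Fin k, (univ.filter fun θ : Fin K => (X i + θ) / K ≠ (Y i + θ) / K).card
      ≤ ∑ _i : Fin k, 1 := by
        refine sum_le_sum fun i _ => ?_
        rcases Nat.lt_or_ge (X i) (Y i) with h2 | h2
        · have h3 : Y i = X i + 1 := le_antisymm (h i).2 h2
          rw [h3]
          exact card_change _
        · have h3 : Y i = X i := le_antisymm h2 (h i).1
          rw [h3]
          simp
    _ = k := by simp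

/-- **A balanced mixture.** `V` has the sum zero, and `V x g ≥ 0` if the gap `g` of the configuration
`x` is empty. Then some mixture of `n` configurations in one unit cube is balanced up to a constant. -/
theorem mix (k N n : ℕ) (hn : 0 < n) (V : (Fin k → ℕ) → Fin (k + 1) → ℤ)
    (hsum : ∀ x, Monotone x → (∀ i, x i ≤ N) → ∑ g, V x g = 0)
    (hb : ∀ x, Monotone x → (∀ i, x i ≤ N) → ∀ g, |V x g| ≤ n)
    (hface : ∀ x, Monotone x → (∀ i, x i ≤ N) → ∀ g, gap N x g = 0 → 0 ≤ V x g) :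
    ∃ (b : Fin k → ℕ) (x : Fin n → Fin k → ℕ), Monotone b ∧ (∀ i, b i ≤ N) ∧
      (∀ θ, Monotone (x θ) ∧ (∀ i, x θ i ≤ N) ∧ ∀ i, b i ≤ x θ i ∧ x θ i ≤ b i + 1) ∧
      ∀ g, |∑ θ, V (x θ) g| ≤ 2 * k ^ 2 * n := by
  classical
  -- the sums over the mixture
  let S : (Fin k → ℕ) → Fin (k + 1) → ℤ := fun X g => ∑ θ : Fin n, V (sh n X θ) g
  have hS0 : ∀ X, Monotone X → (∀ i, X i ≤ n * N) → ∑ g, S X g = 0 := by
    intro X h1 h2
    show ∑ g, ∑ θ : Fin n, V (sh n X θ) g = 0
    rw [sum_comm]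
    exact sum_eq_zero fun θ _ => hsum _ (sh_mono h1 θ) (sh_le h2 θ)
  have hSf : ∀ X, Monotone X → (∀ i, X i ≤ n * N) → ∀ g, gap (n * N) X g = 0 → 0 ≤ S X g :=
    fun X h1 h2 g hg => sum_nonneg fun θ _ => hface _ (sh_mono h1 θ) (sh_le h2 θ) g (gap_sh h2 θ hg)
  have hSl : ∀ X Y, Monotone X → (∀ i, X i ≤ n * N) → Monotone Y → (∀ i, Y i ≤ n * N) →
      (∀ i, X i ≤ Y i ∧ Y i ≤ X i + 1) → ∀ g, S X g ≤ S Y g + 2 * k * n := by
    intro X Y h1 h2 h3 h4 h5 g
    have h6 : S X g - S Y g = ∑ θ ∈ univ.filter fun θ : Fin n => sh n X θ ≠ sh n Y θ,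
        (V (sh n X θ) g - V (sh n Y θ) g) := by
      show ∑ θ : Fin n, V (sh n X θ) g - ∑ θ : Fin n, V (sh n Y θ) g = _
      rw [← sum_sub_distrib, sum_filter]
      refine sum_congr rfl fun θ _ => ?_
      split_ifs with h
      · rfl
      · rw [not_not.1 h, sub_self]
    have h7 : S X g - S Y g ≤ ∑ _θ ∈ univ.filter fun θ : Fin n => sh n X θ ≠ sh n Y θ,
        (2 * n : ℤ) := by
      rw [h6]
      refine sum_le_sum fun θ _ => ?_
      have h8 := abs_le.1 (hb _ (sh_mono h1 θ) (sh_le h2 θ) g)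
      have h9 := abs_le.1 (hb _ (sh_mono h3 θ) (sh_le h4 θ) g)
      linarith [h8.2, h9.1]
    rw [sum_const, nsmul_eq_mul] at h7
    have h8 : ((univ.filter fun θ : Fin n => sh n X θ ≠ sh n Y θ).card : ℤ) ≤ k := by
      exact_mod_cast card_bad h5
    have h9 : (0 : ℤ) ≤ 2 * n := by positivity
    nlinarith [mul_le_mul_of_nonneg_right h8 h9]
  rcases Nat.eq_zero_or_pos N with hN | hN
  · -- only one configuration
    subst hN
    refine ⟨fun _ => 0, fun _ _ => 0, fun _ _ _ => le_rfl, fun _ => le_rfl,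
      fun _ => ⟨fun _ _ _ => le_rfl, fun _ => le_rfl, fun _ => ⟨le_rfl, Nat.zero_le _⟩⟩,
      fun g => ?_⟩
    have hm : Monotone (fun _ : Fin k => 0) := fun _ _ _ => le_rfl
    have h1 : ∀ g, 0 ≤ V (fun _ => 0) g := fun g => by
      refine hface _ hm (fun _ => le_rfl) g ?_
      unfold gap
      split_ifs <;> rfl
    have h2 := (sum_eq_zero_iff_of_nonneg fun g _ => h1 g).1 (hsum _ hm fun _ => le_rfl) g
      (mem_univ g)
    show |∑ _θ : Fin n, V (fun _ => 0) g| ≤ _
    rw [h2, sum_const_zero, abs_zero]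
    positivity
  · have hM : 0 < n * N := Nat.mul_pos hn hN
    have hex : ∀ X, Monotone X → (∀ i, X i ≤ n * N) →
        ∃ g, gap (n * N) X g ≠ 0 ∧ S X g ≤ 0 := by
      intro X h1 h2
      by_contra hc
      have hpos : ∀ g, gap (n * N) X g ≠ 0 → 0 < S X g := fun g h3 => by
        by_contra h4
        exact hc ⟨g, h3, not_lt.1 h4⟩
      obtain ⟨g0, h0⟩ := exists_gap (X := X) hM
      have h3 : ∀ g, 0 ≤ S X g := fun g => by
        by_cases h4 : gap (n * N) X g = 0
        · exact hSf X h1 h2 g h4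
        · exact (hpos g h4).le
      have h4 : 0 < ∑ g, S X g := sum_pos' (fun g _ => h3 g) ⟨g0, mem_univ _, hpos g0 h0⟩
      rw [hS0 X h1 h2] at h4
      exact lt_irrefl _ h4
    let lab : (Fin k → ℕ) → Fin (k + 1) := fun X =>
      if h : ∃ g, gap (n * N) X g ≠ 0 ∧ S X g ≤ 0 then h.choose else 0
    have hlab : ∀ X, Monotone X → (∀ i, X i ≤ n * N) →
        gap (n * N) X (lab X) ≠ 0 ∧ S X (lab X) ≤ 0 := by
      intro X h1 h2
      have h := hex X h1 h2
      show gap (n * N) X (dite _ _ _) ≠ 0 ∧ S X (dite _ _ _) ≤ 0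
      rw [dif_pos h]
      exact h.choose_spec
    obtain ⟨X, hX1, hX2, hX3⟩ := Pool.Agent.H57.EH.kkm k (n * N) lab
      fun X h1 h2 => (hlab X h1 h2).1
    have hup : ∀ g, S X g ≤ 2 * k * n := by
      intro g
      obtain ⟨Y, hY1, hY2, hY3, hY4⟩ := hX3 g
      have h1 := (hlab Y hY1 hY2).2
      rw [hY4] at h1
      have h2 := hSl X Y hX1 hX2 hY1 hY2 hY3 g
      linarith
    refine ⟨fun i => X i / n, fun θ => sh n X θ, fun _ _ h => Nat.div_le_div_right (hX1 h),
      fun i => ?_, fun θ => ⟨sh_mono hX1 θ, sh_le hX2 θ, fun i => ⟨?_, ?_⟩⟩, fun g => ?_⟩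
    · have h := sh_le hX2 (⟨0, hn⟩ : Fin n) i
      simpa [sh] using h
    · exact Nat.div_le_div_right (Nat.le_add_right _ _)
    · show (X i + θ) / n ≤ X i / n + 1
      rw [← Nat.add_div_right _ hn]
      exact Nat.div_le_div_right (Nat.add_le_add_left θ.2.le _)
    · show |S X g| ≤ _
      rcases Nat.eq_zero_or_pos k with hk | hk
      · subst hk
        have h1 := hS0 X hX1 hX2
        have h2 : S X g = 0 := by
          rw [← h1]
          have h3 : g = 0 := Fin.ext (by have := g.2; omega)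
          rw [h3]
          simp
        rw [h2]
        simp
      · have hk' : (1 : ℤ) ≤ k := by exact_mod_cast hk
        have hn' : (0 : ℤ) ≤ n := by positivity
        have h1 := hS0 X hX1 hX2
        have h2 : S X g = - ∑ g' ∈ univ.erase g, S X g' := by
          rw [← add_sum_erase _ _ (mem_univ g)] at h1
          linarith
        have h3 : ∑ g' ∈ univ.erase g, S X g' ≤ ∑ _g' ∈ univ.erase g, (2 * k * n : ℤ) :=
          sum_le_sum fun g' _ => hup g'
        rw [sum_const, card_erase_of_mem (mem_univ g), card_univ, Fintype.card_fin,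
          nsmul_eq_mul, Nat.add_sub_cancel] at h3
        rw [abs_le]
        constructor
        · rw [h2]
          have : (k : ℤ) * (2 * k * n) = 2 * k ^ 2 * n := by ring
          linarith
        · refine (hup g).trans ?_
          have : (2 * k * n : ℤ) ≤ 2 * k * n * k := le_mul_of_one_le_right (by positivity) hk'
          calc (2 * k * n : ℤ) ≤ 2 * k * n * k := this
            _ = 2 * k ^ 2 * n := by ring

end Pool.Agent.H85.ES
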